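import Pool.Agent.TH404.AK.Sdc3
import Pool.Agent.Results.MP_bb5cc8_nt.FlagSumsDifferences

/-!
# Covering `[1, N]` by one residue class for each prime near `N^α`, `1/2 < α < 1`: new exponents

`LowerExponent α c` says `S_a(N) ≥ N^{c - o(1)}` uniformly in the choice `a` of residue classes
(definitions in `Pool/Agent/H170R2/PC/Defs.lean`).  We feed the sums-differences exponent
`1.669587` (`Pool.Agent.TH404.AK.sdc3`) into the theorem which turns every sums-differences
exponent into lower exponents (`FlagSumsDifferences.general`).
-/

namespace Pool.Agent.Results.MP_bb5cc8_nt.ChainExponents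

open Pool.Agent.H170R2.PC Pool.Agent.W904.AK
open Pool.Agent.Results.MP_bb5cc8_nt.FlagSumsDifferences

/-- The new lower exponent: `expo α` is the larger of
`min (3/2 - α) ((3 - 1.330413 α) / 2.669587)` and `1 - α + α / 1.669587`. -/
noncomputable def expo (α : ℝ) : ℝ :=
  max (min (3 / 2 - α) ((3 - (1330413 / 1000000) * α) / (2669587 / 1000000)))
    (1 - α + α / (1669587 / 1000000))

/-- New lower exponents for every `1/2 < α < 1`.  For `0.608 ≤ α < 3/4` and for `0.835 ≤ α < 1`
they are larger than all the earlier exponents, which are `newExpo α` (the same formula with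
`1.67108` instead of `1.669587`), `min (1 - α/3) (3/2 - α)`, `1 - 3α/7`, `1 - 5α/11` and the
reciprocal energy exponents. -/
theorem result :
    (∀ α : ℝ, 1 / 2 < α → α < 1 → LowerExponent α (expo α)) ∧
    (∀ α : ℝ, (608 / 1000 ≤ α ∧ α < 3 / 4) ∨ (835 / 1000 ≤ α ∧ α < 1) →
      newExpo α < expo α ∧
      min (1 - α / 3) (3 / 2 - α) < expo α ∧ 1 - 3 * α / 7 < expo α ∧
      1 - 5 * α / 11 < expo α ∧
      ∀ h : ℕ, 1 ≤ h → min ((3 - 2 * α - (1 - α) / h) / 2)
        (2 - 2 * α + (2 * α - 1) / (2 * h)) < expo α) := by
  refine ⟨fun α h1 h2 => ?_, ?_⟩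
  · have h := general (c := 1669587 / 1000000) (by norm_num) (by norm_num)
      Pool.Agent.TH404.AK.sdc3 h1 h2
    have e : expoOf (1669587 / 1000000) α = expo α := by
      unfold expoOf expo
      norm_num
    rwa [e] at h
  intro α hα
  rcases hα with ⟨h1, h2⟩ | ⟨h1, h2⟩
  · have hF : (3 - (1330413 / 1000000) * α) / (2669587 / 1000000) ≤ expo α := by
      unfold expo
      refine le_max_of_le_left (le_min ?_ le_rfl)
      rw [div_le_iff₀ (by norm_num)]
      linarith
    have hF' : ∀ x : ℝ, x * (2669587 / 1000000) < 3 - (1330413 / 1000000) * α → x < expo α := by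
      intro x hx
      refine lt_of_lt_of_le ?_ hF
      rw [lt_div_iff₀ (by norm_num)]
      linarith
    refine ⟨?_, ?_, ?_, ?_, ?_⟩
    · apply hF'
      unfold newExpo expoOf
      rcases max_choice (min (3 / 2 - α)
        ((3 - (3 - 167108 / 100000) * α) / (1 + 167108 / 100000)))
        (1 - α + α / (167108 / 100000)) with hm | hm
      · rw [hm]
        have e2 : (3 - (3 - 167108 / 100000) * α) / (1 + 167108 / 100000) =
          (3 - (3 - 167108 / 100000) * α) * (100000 / 267108) := by ring
        have := (min_le_right (3 / 2 - α)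
          ((3 - (3 - 167108 / 100000) * α) / (1 + 167108 / 100000))).trans_eq e2
        linarith
      · rw [hm]
        have e2 : α / (167108 / 100000) = α * (100000 / 167108) := by ring
        rw [e2]
        nlinarith
    · exact (min_le_left _ _).trans_lt (hF' _ (by linarith))
    · exact hF' _ (by linarith)
    · exact hF' _ (by linarith)
    · intro h hh
      have hh0 : (1 : ℝ) ≤ h := by exact_mod_cast hh
      rcases Nat.lt_or_ge h 3 with h3 | h3
      · have h3' : (h : ℝ) ≤ 2 := by exact_mod_cast (by omega : h ≤ 2)
        refine (min_le_left _ _).trans_lt (hF' _ ?_)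
        have e : (1 - α) / 2 ≤ (1 - α) / h := by
          apply div_le_div_of_nonneg_left <;> linarith
        linarith
      · have h3' : (3 : ℝ) ≤ h := by exact_mod_cast h3
        refine (min_le_right _ _).trans_lt (hF' _ ?_)
        have e : (2 * α - 1) / (2 * h) ≤ (2 * α - 1) / (2 * 3) := by
          apply div_le_div_of_nonneg_left <;> linarith
        linarith
  · have hG : 1 - α + α / (1669587 / 1000000) ≤ expo α := le_max_right _ _
    have hG' : ∀ x : ℝ, x < 1 - α + α * (1000000 / 1669587) → x < expo α := by
      intro x hx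
      refine lt_of_lt_of_le ?_ hG
      have : α / (1669587 / 1000000) = α * (1000000 / 1669587) := by ring
      linarith
    refine ⟨?_, ?_, ?_, ?_, ?_⟩
    · apply hG'
      unfold newExpo expoOf
      rcases max_choice (min (3 / 2 - α)
        ((3 - (3 - 167108 / 100000) * α) / (1 + 167108 / 100000)))
        (1 - α + α / (167108 / 100000)) with hm | hm
      · rw [hm]
        have := min_le_left (3 / 2 - α)
          ((3 - (3 - 167108 / 100000) * α) / (1 + 167108 / 100000))
        linarith
      · rw [hm]
        have e2 : α / (167108 / 100000) = α * (100000 / 167108) := by ring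
        rw [e2]
        nlinarith
    · exact (min_le_right _ _).trans_lt (hG' _ (by linarith))
    · exact hG' _ (by linarith)
    · exact hG' _ (by linarith)
    · intro h hh
      have hh0 : (1 : ℝ) ≤ h := by exact_mod_cast hh
      refine (min_le_right _ _).trans_lt (hG' _ ?_)
      have e : (2 * α - 1) / (2 * h) ≤ (2 * α - 1) / (2 * 1) := by
        apply div_le_div_of_nonneg_left <;> linarith
      linarith

end Pool.Agent.Results.MP_bb5cc8_nt.ChainExponents
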