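import Pool.Agent.TH539.CovS

/-!
Lower bounds `N^(1 - 3δ - o(1))` for the number of covered integers, for choices of residue classes
which are algebraic or affine up to an error `N^δ` at a proportion `N^(-δ)` of the primes.
-/

open Finset Filter Topology

namespace Pool.Agent.Results.MP_bb5cc8_nt.StructuredClasses

open Pool.Agent.H170R2.PC Pool.Agent.TH539.CovS

/-- `Q` consists of primes `N^α ≤ p < 2 N^α` and makes up a proportion at least `N^(-δ)` of them. -/
def Rich (α : ℝ) (N : ℕ) (δ : ℝ) (Q : Finset ℕ) : Prop :=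
  (∀ p ∈ Q, InRange α N p) ∧
    (N : ℝ) ^ (-δ) * (Set.ncard {p : ℕ | InRange α N p} : ℝ) ≤ (Q.card : ℝ)

/-- There is a nonconstant integer polynomial `F` of degree `≤ N^δ` with coefficients of absolute
value `≤ exp (N^δ)` such that, for a proportion at least `N^(-δ)` of the primes, the value `F (a p)`
is the class modulo `p` of an integer of absolute value `≤ N^δ`. -/
def NearAlgebraic (α : ℝ) (N : ℕ) (δ : ℝ) (a : (p : ℕ) → ZMod p) : Prop :=
  ∃ F : Polynomial ℤ, 1 ≤ F.natDegree ∧ (F.natDegree : ℝ) ≤ (N : ℝ) ^ δ ∧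
    (∀ i, |(F.coeff i : ℝ)| ≤ Real.exp ((N : ℝ) ^ δ)) ∧
    ∃ Q : Finset ℕ, Rich α N δ Q ∧ ∀ p ∈ Q, ∃ e : ℤ, |(e : ℝ)| ≤ (N : ℝ) ^ δ ∧
      (F.map (Int.castRingHom (ZMod p))).eval (a p) = (e : ZMod p)

/-- There are real numbers `θ`, `β` with `|β| ≤ N` such that, for a proportion at least `N^(-δ)` of
the primes, the class `a p` contains an integer `b` with `|b - θ p - β| ≤ N^δ`. -/
def NearAffine (α : ℝ) (N : ℕ) (δ : ℝ) (a : (p : ℕ) → ZMod p) : Prop :=
  ∃ θ β : ℝ, |β| ≤ N ∧ ∃ Q : Finset ℕ, Rich α N δ Q ∧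
    ∀ p ∈ Q, ∃ b : ℤ, (b : ZMod p) = a p ∧ |(b : ℝ) - θ * p - β| ≤ (N : ℝ) ^ δ

lemma rich_iff {α : ℝ} {N : ℕ} {δ : ℝ} {Q : Finset ℕ} (h : Rich α N δ Q) :
    Q ⊆ PD α N ∧ (N : ℝ) ^ (-δ) * ((PD α N).card : ℝ) ≤ (Q.card : ℝ) := by
  refine ⟨fun p hp => mem_PD.mpr (h.1 p hp), ?_⟩
  have : Set.ncard {p : ℕ | InRange α N p} = (PD α N).card := by
    rw [← Set.ncard_coe_finset]
    congr 1
    ext p
    simp [mem_PD]
  rw [← this]
  exact h.2

lemma eval_bound (F : Polynomial ℤ) {x : ℝ} (hx : 0 ≤ x) (hc : ∀ i, |(F.coeff i : ℝ)| ≤ x)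
    {n N : ℕ} (hn : n ≤ N) (hN : 1 ≤ N) :
    |((F.eval (n : ℤ) : ℤ) : ℝ)| ≤ (F.natDegree + 1) * x * (N : ℝ) ^ F.natDegree := by
  rw [Polynomial.eval_eq_sum_range]
  push_cast
  refine (Finset.abs_sum_le_sum_abs _ _).trans ?_
  have : ∀ i ∈ range (F.natDegree + 1), |((F.coeff i : ℤ) : ℝ) * (n : ℝ) ^ i|
      ≤ x * (N : ℝ) ^ F.natDegree := by
    intro i hi
    rw [abs_mul, abs_of_nonneg (by positivity : (0 : ℝ) ≤ (n : ℝ) ^ i)]
    have h1 : (n : ℝ) ^ i ≤ (N : ℝ) ^ F.natDegree := by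
      calc (n : ℝ) ^ i ≤ (N : ℝ) ^ i := by
            have : (n : ℝ) ≤ N := by exact_mod_cast hn
            gcongr
        _ ≤ (N : ℝ) ^ F.natDegree := by
            have h2 : (1 : ℝ) ≤ N := by exact_mod_cast hN
            exact pow_le_pow_right₀ h2 (by rw [mem_range] at hi; omega)
    exact mul_le_mul (hc i) h1 (by positivity) hx
  refine (Finset.sum_le_sum this).trans ?_
  rw [Finset.sum_const, card_range, nsmul_eq_mul]
  push_cast
  exact le_of_eq (by ring)

/-- **algebraic choices** -/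
theorem part_algebraic {α δ ε : ℝ} (hα : 0 < α) (hα1 : α < 1) (hδ : 0 ≤ δ)
    (hδα : 2 * δ < 1 - α) (hε : 0 < ε) :
    ∃ N₀ : ℕ, ∀ N : ℕ, N₀ ≤ N → ∀ a : (p : ℕ) → ZMod p, NearAlgebraic α N δ a →
      (N : ℝ) ^ (1 - 3 * δ - ε) ≤ (coveredCount α N a : ℝ) := by
  set η : ℝ := min (min (ε / 3) 1) ((1 - α - 2 * δ) / 2) with hη
  have hη0 : 0 < η := by
    rw [hη]
    refine lt_min (lt_min (by linarith) one_pos) (by linarith)
  have hηε : η ≤ ε / 3 := (min_le_left _ _).trans (min_le_left _ _)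
  have hη1 : η ≤ 1 := (min_le_left _ _).trans (min_le_right _ _)
  have hη2 : η ≤ (1 - α - 2 * δ) / 2 := min_le_right _ _
  have hgap : 0 < 1 - α - η - 2 * δ := by linarith
  have hev : ∀ᶠ N : ℕ in atTop, ∀ a : (p : ℕ) → ZMod p, NearAlgebraic α N δ a →
      (N : ℝ) ^ (1 - 3 * δ - ε) ≤ (coveredCount α N a : ℝ) := by
    filter_upwards [ev_card hα hα1.le hη0 hη1, ev_div hα hα1 hη0 2 (by norm_num),
      ev_const 6 hgap, ev_const (36 / α) hη0, ev_const 4 (show (0 : ℝ) < 1 - δ by linarith),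
      eventually_ge_atTop 3] with N h1 h2 h3 h4 h5 hN3 a ha
    obtain ⟨F, hF1, hFd, hFc, Q, hQ, hQe⟩ := ha
    obtain ⟨hQD, hQc⟩ := rich_iff hQ
    have hN0 : (0 : ℝ) < N := by positivity
    have hN1 : (1 : ℝ) ≤ N := by exact_mod_cast (by omega : 1 ≤ N)
    set Y := ⌈(N : ℝ) ^ α⌉₊ with hY
    set D := PD α N with hD
    have hDp := PD_prop (α := α) (N := N)
    set x : ℝ := (N : ℝ) ^ δ with hx
    have hx1 : 1 ≤ x := Real.one_le_rpow hN1 hδ
    set K : ℕ := ⌊x⌋₊ with hK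
    have hKx : (K : ℝ) ≤ x := Nat.floor_le (by linarith)
    have hK1 : 1 ≤ K := by
      rw [hK, Nat.one_le_floor_iff]
      exact hx1
    have hdK : F.natDegree ≤ K := Nat.le_floor hFd
    have hxN : 4 * x ≤ N := by
      have : (N : ℝ) = (N : ℝ) ^ (1 - δ) * x := by
        rw [hx, ← Real.rpow_add hN0]; simp
      rw [this]
      exact mul_le_mul_of_nonneg_right h5 (by linarith)
    have hKN : K + 2 ≤ N := by
      have : (K : ℝ) + 2 ≤ N := by linarith
      exact_mod_cast this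
    set h : ℕ := ⌈(2 * x + 3) / α⌉₊ with hh
    have hh1 : 2 * x + 3 ≤ α * h := by
      have := Nat.le_ceil ((2 * x + 3) / α)
      rw [div_le_iff₀ hα] at this
      linarith
    have hh2 : (h : ℝ) ≤ 6 / α * x := by
      have := Nat.ceil_lt_add_one (show 0 ≤ (2 * x + 3) / α by positivity)
      have e1 : (2 * x + 3) / α ≤ 5 / α * x := by
        rw [div_mul_eq_mul_div, div_le_div_iff_of_pos_right hα]
        linarith
      have e2 : (1 : ℝ) ≤ 1 / α * x := by
        rw [div_mul_eq_mul_div, one_mul, le_div_iff₀ hα]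
        linarith
      have e3 : 6 / α * x = 5 / α * x + 1 / α * x := by ring
      linarith
    have hval : ∀ n ∈ Icc 1 N, ∀ e : ℤ, |e| ≤ K → (F.eval (n : ℤ) - e).natAbs < Y ^ h := by
      intro n hn e he
      have hb1 := eval_bound F (Real.exp_pos x).le hFc (mem_Icc.mp hn).2 (by omega : 1 ≤ N)
      have he' : |(e : ℝ)| ≤ K := by exact_mod_cast he
      have hex1 : 1 ≤ Real.exp x := Real.one_le_exp (by linarith)
      have hb2 : |((F.eval (n : ℤ) - e : ℤ) : ℝ)| ≤ (N : ℝ) ^ (K + 2) * Real.exp x := by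
        push_cast
        refine (abs_sub _ _).trans ?_
        have g1 : ((F.natDegree : ℝ) + 1) * Real.exp x * (N : ℝ) ^ F.natDegree
            ≤ ((N : ℝ) - 1) * Real.exp x * (N : ℝ) ^ K := by
          have g2 : (F.natDegree : ℝ) + 1 ≤ (N : ℝ) - 1 := by
            have : F.natDegree + 2 ≤ N := by omega
            have : ((F.natDegree + 2 : ℕ) : ℝ) ≤ N := by exact_mod_cast this
            push_cast at this
            linarith
          have g3 : (N : ℝ) ^ F.natDegree ≤ (N : ℝ) ^ K := pow_le_pow_right₀ hN1 hdK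
          gcongr
        have g4 : (K : ℝ) ≤ 1 * Real.exp x * (N : ℝ) ^ K * N := by
          have : (K : ℝ) ≤ N := by exact_mod_cast (by omega : K ≤ N)
          have g5 : (1 : ℝ) ≤ Real.exp x * (N : ℝ) ^ K :=
            one_le_mul_of_one_le_of_one_le hex1 (one_le_pow₀ hN1)
          nlinarith
        have g6 : (N : ℝ) ^ (K + 2) * Real.exp x = (N : ℝ) * N * Real.exp x * (N : ℝ) ^ K := by
          rw [pow_add]; ring
        rw [g6]
        have g7 : 0 < Real.exp x * (N : ℝ) ^ K := by positivity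
        have hN3' : (3 : ℝ) ≤ N := by exact_mod_cast hN3
        nlinarith [hb1, g1, g4, he', g7, mul_pos g7 hN0]
      have hb3 : (N : ℝ) ^ (K + 2) * Real.exp x < (Y : ℝ) ^ h := by
        have hYR : (N : ℝ) ^ α ≤ Y := Nat.le_ceil _
        have f1 : ((N : ℝ) ^ α) ^ h ≤ (Y : ℝ) ^ h := pow_le_pow_left₀ (by positivity) hYR h
        refine lt_of_lt_of_le ?_ f1
        have hlog : 1 ≤ Real.log N := by
          rw [Real.le_log_iff_exp_le hN0]
          have : Real.exp 1 < 3 := Real.exp_one_lt_three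
          have hN3' : (3 : ℝ) ≤ N := by exact_mod_cast hN3
          linarith
        have f2 : ((N : ℝ) ^ α) ^ h = Real.exp (Real.log N * (α * h)) := by
          rw [← Real.rpow_natCast, ← Real.rpow_mul hN0.le, Real.rpow_def_of_pos hN0]
        have f3 : (N : ℝ) ^ (K + 2) * Real.exp x = Real.exp (Real.log N * (K + 2) + x) := by
          rw [Real.exp_add, ← Real.rpow_natCast, Real.rpow_def_of_pos hN0]
          push_cast
          rfl
        rw [f2, f3, Real.exp_lt_exp]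
        have f4 : Real.log N * (2 * x + 3) ≤ Real.log N * (α * h) := by gcongr
        have f5 : Real.log N * (2 * x + 3) = Real.log N * (K + 2) + (Real.log N * (x - K) + Real.log N * (x + 1)) := by
          ring
        have f6 : 0 ≤ Real.log N * (x - K) := mul_nonneg (by linarith) (by linarith)
        have f7 : x + 1 ≤ Real.log N * (x + 1) := le_mul_of_one_le_left (by linarith) hlog
        linarith
      have hb4 : (((F.eval (n : ℤ) - e).natAbs : ℕ) : ℝ) < ((Y ^ h : ℕ) : ℝ) := by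
        rw [Nat.cast_natAbs]
        push_cast at hb2 ⊢
        exact lt_of_le_of_lt hb2 hb3
      exact_mod_cast hb4
    set c : ℕ := N / (2 * Y) - 1 with hc
    have hYpos : 0 < Y := Nat.ceil_pos.mpr (by positivity)
    have hcCl : ∀ p ∈ D, c ≤ (Cl N a p).card := by
      intro p hp
      refine card_Cl_ge (hDp p hp).1.pos ?_
      have := (hDp p hp).2.2
      calc c * p ≤ (N / (2 * Y)) * (2 * Y) := Nat.mul_le_mul (Nat.sub_le _ _) this
        _ ≤ N := Nat.div_mul_le_self _ _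
    have hmain := algebraic hQD hDp F hF1 (K := K) (h := h) (a := a)
      (fun p hp => by
        obtain ⟨e, he1, he2⟩ := hQe p hp
        refine ⟨e, ?_, he2⟩
        have : (|e| : ℤ) ≤ ⌊x⌋ := by
          rw [Int.le_floor]
          exact_mod_cast he1
        rw [hK]
        have h0 : (⌊x⌋₊ : ℤ) = ⌊x⌋ := Int.natCast_floor_eq_floor (by linarith)
        rw [h0]
        exact this)
      hval hcCl
    rw [coveredCount_eq]
    set S := (Cov D a N).card with hS
    have hmR : (c : ℝ) * Q.card ≤ S * ((2 * K + 1) * h) + (2 * K + 1) * F.natDegree * Q.card := by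
      exact_mod_cast hmain
    have hxx : x * x = (N : ℝ) ^ (2 * δ) := by
      rw [hx, ← Real.rpow_add hN0]; ring_nf
    have hc1 : (N : ℝ) ^ (1 - α - η) ≤ c := h2
    have hsmall : (2 * (K : ℝ) + 1) * F.natDegree ≤ c / 2 := by
      have k1 : (2 * (K : ℝ) + 1) * F.natDegree ≤ 3 * (x * x) := by
        have : (2 * (K : ℝ) + 1) ≤ 3 * x := by linarith
        calc (2 * (K : ℝ) + 1) * F.natDegree ≤ (3 * x) * x := by gcongr
          _ = _ := by ring
      have k2 : 6 * (x * x) ≤ (N : ℝ) ^ (1 - α - η) := by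
        have : (N : ℝ) ^ (1 - α - η) = (N : ℝ) ^ (1 - α - η - 2 * δ) * (x * x) := by
          rw [hxx, ← Real.rpow_add hN0]; ring_nf
        rw [this]
        gcongr
      linarith
    have hQpos : (0 : ℝ) ≤ Q.card := Nat.cast_nonneg _
    have hS1 : (c : ℝ) / 2 * Q.card ≤ S * ((2 * K + 1) * h) := by
      have := mul_le_mul_of_nonneg_right hsmall hQpos
      linarith
    have hS2 : (S : ℝ) * ((2 * K + 1) * h) ≤ S * (3 * x * (6 / α * x)) := by
      have : (2 * (K : ℝ) + 1) ≤ 3 * x := by linarith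
      gcongr
    have hQ2 : (N : ℝ) ^ (-δ) * (N : ℝ) ^ (α - η) ≤ Q.card :=
      (mul_le_mul_of_nonneg_left h1 (by positivity)).trans hQc
    have hprod : (N : ℝ) ^ (1 - α - η) * ((N : ℝ) ^ (-δ) * (N : ℝ) ^ (α - η)) ≤ c * Q.card :=
      mul_le_mul hc1 hQ2 (by positivity) (Nat.cast_nonneg _)
    have hfin : (N : ℝ) ^ (1 - α - η) * ((N : ℝ) ^ (-δ) * (N : ℝ) ^ (α - η))
        ≤ S * (36 / α * (x * x)) := by
      have e1 : (S : ℝ) * (36 / α * (x * x)) = 2 * (S * (3 * x * (6 / α * x))) := by ring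
      rw [e1]
      linarith
    have e2 : (N : ℝ) ^ (1 - α - η) * ((N : ℝ) ^ (-δ) * (N : ℝ) ^ (α - η))
        = (N : ℝ) ^ (1 - 3 * δ - 3 * η) * ((N : ℝ) ^ η * (x * x)) := by
      rw [hxx, ← Real.rpow_add hN0, ← Real.rpow_add hN0, ← Real.rpow_add hN0, ← Real.rpow_add hN0]
      ring_nf
    rw [e2] at hfin
    have hxxpos : 0 < x * x := by positivity
    have e3 : (N : ℝ) ^ (1 - 3 * δ - 3 * η) * (36 / α) ≤ S * (36 / α) := by
      have e4 : (N : ℝ) ^ (1 - 3 * δ - 3 * η) * (36 / α) * (x * x)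
          ≤ (N : ℝ) ^ (1 - 3 * δ - 3 * η) * ((N : ℝ) ^ η) * (x * x) := by gcongr
      have e5 : (N : ℝ) ^ (1 - 3 * δ - 3 * η) * (36 / α) * (x * x) ≤ S * (36 / α) * (x * x) := by
        calc _ ≤ _ := e4
          _ = (N : ℝ) ^ (1 - 3 * δ - 3 * η) * ((N : ℝ) ^ η * (x * x)) := by ring
          _ ≤ _ := hfin
          _ = _ := by ring
      exact le_of_mul_le_mul_right e5 hxxpos
    have e6 : (N : ℝ) ^ (1 - 3 * δ - 3 * η) ≤ S :=
      le_of_mul_le_mul_right e3 (by positivity)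
    refine le_trans (Real.rpow_le_rpow_of_exponent_le hN1 ?_) e6
    linarith
  obtain ⟨N₀, hN₀⟩ := eventually_atTop.mp hev
  exact ⟨N₀, fun N hN a ha => hN₀ N hN a ha⟩

/-- **near-affine choices** -/
theorem part_affine {α δ ε : ℝ} (hα : 0 < α) (hα1 : α < 1) (hδ : 0 ≤ δ)
    (hδα : 2 * δ < 1 - α) (hε : 0 < ε) :
    ∃ N₀ : ℕ, ∀ N : ℕ, N₀ ≤ N → ∀ a : (p : ℕ) → ZMod p, NearAffine α N δ a →
      (N : ℝ) ^ (1 - 3 * δ - ε) ≤ (coveredCount α N a : ℝ) := by
  set η : ℝ := min (ε / 5) 1 with hη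
  have hη0 : 0 < η := lt_min (by linarith) one_pos
  have hηε : η ≤ ε / 5 := min_le_left _ _
  have hη1 : η ≤ 1 := min_le_right _ _
  set h : ℕ := ⌈2 / α⌉₊ with hh
  have hh2 : 2 ≤ α * h := by
    have := Nat.le_ceil (2 / α)
    rw [div_le_iff₀ hα] at this
    linarith
  have hh1 : 1 ≤ h := by
    rw [hh, Nat.one_le_ceil_iff]
    positivity
  have hev : ∀ᶠ N : ℕ in atTop, ∀ a : (p : ℕ) → ZMod p, NearAffine α N δ a →
      (N : ℝ) ^ (1 - 3 * δ - ε) ≤ (coveredCount α N a : ℝ) := by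
    filter_upwards [ev_card hα hα1.le hη0 hη1, ev_div hα hα1 hη0 4 (by norm_num),
      ev_const (315 * h) hη0, ev_const 4 (show (0 : ℝ) < 1 - δ by linarith),
      ev_const 2 (show (0 : ℝ) < 1 - α by linarith),
      eventually_ge_atTop 10] with N h1 h2 h3 h5 h6 hN10 a ha
    obtain ⟨θ, β, hβ, Q, hQ, hQb⟩ := ha
    choose! b hb1 hb2 using hQb
    obtain ⟨hQD, hQc⟩ := rich_iff hQ
    have hN0 : (0 : ℝ) < N := by positivity
    have hN1 : (1 : ℝ) ≤ N := by exact_mod_cast (by omega : 1 ≤ N)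
    set Y := ⌈(N : ℝ) ^ α⌉₊ with hY
    set D := PD α N with hD
    have hDp := PD_prop (α := α) (N := N)
    set x : ℝ := (N : ℝ) ^ δ with hx
    have hx1 : 1 ≤ x := Real.one_le_rpow hN1 hδ
    set K : ℕ := ⌈x⌉₊ with hK
    have hKx : (K : ℝ) ≤ 2 * x := by
      have := Nat.ceil_lt_add_one (show 0 ≤ x by linarith)
      linarith
    have hxK : x ≤ K := Nat.le_ceil _
    have hxN : 4 * x ≤ N := by
      have : (N : ℝ) = (N : ℝ) ^ (1 - δ) * x := by
        rw [hx, ← Real.rpow_add hN0]; simp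
      rw [this]
      exact mul_le_mul_of_nonneg_right h5 (by linarith)
    have hKN : K ≤ N := by
      have : (K : ℝ) ≤ N := by linarith
      exact_mod_cast this
    have hYpos : 0 < Y := Nat.ceil_pos.mpr (by positivity)
    have hNα : 1 ≤ (N : ℝ) ^ α := Real.one_le_rpow hN1 hα.le
    have hYN : Y ≤ N := by
      have e1 := Nat.ceil_lt_add_one (show 0 ≤ (N : ℝ) ^ α by positivity)
      have e2 : (N : ℝ) = (N : ℝ) ^ (1 - α) * (N : ℝ) ^ α := by
        rw [← Real.rpow_add hN0]; simp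
      have e3 : 2 * (N : ℝ) ^ α ≤ N := by
        calc 2 * (N : ℝ) ^ α ≤ (N : ℝ) ^ (1 - α) * (N : ℝ) ^ α :=
              mul_le_mul_of_nonneg_right h6 (by positivity)
          _ = N := e2.symm
      have : (Y : ℝ) ≤ N := by
        have : (Y : ℝ) < (N : ℝ) ^ α + 1 := e1
        linarith
      exact_mod_cast this
    have hhY : 9 * N < Y ^ h := by
      have hYR : (N : ℝ) ^ α ≤ Y := Nat.le_ceil _
      have f1 : ((N : ℝ) ^ α) ^ h ≤ (Y : ℝ) ^ h := pow_le_pow_left₀ (by positivity) hYR h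
      have f2 : (N : ℝ) ^ (2 : ℝ) ≤ ((N : ℝ) ^ α) ^ h := by
        rw [← Real.rpow_natCast, ← Real.rpow_mul hN0.le]
        exact Real.rpow_le_rpow_of_exponent_le hN1 hh2
      have f3 : (9 : ℝ) * N < (N : ℝ) ^ (2 : ℝ) := by
        have h10 : (10 : ℝ) ≤ N := by exact_mod_cast hN10
        rw [Real.rpow_two]
        nlinarith
      have f4 : ((9 * N : ℕ) : ℝ) < ((Y ^ h : ℕ) : ℝ) := by
        push_cast
        linarith
      exact_mod_cast f4
    set c : ℕ := N / (4 * Y) - 1 with hc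
    have hc1 : (N : ℝ) ^ (1 - α - η) ≤ c := h2
    have hcpos : 1 ≤ c := by
      have : (0 : ℝ) < c := lt_of_lt_of_le (by positivity) hc1
      exact_mod_cast this
    have hcCl : ∀ p ∈ D, c + 2 ≤ (Cl N a p).card := by
      intro p hp
      refine card_Cl_ge (hDp p hp).1.pos ?_
      have := (hDp p hp).2.2
      have h7 : c + 2 ≤ 2 * (N / (4 * Y)) := by omega
      calc (c + 2) * p ≤ (2 * (N / (4 * Y))) * (2 * Y) := Nat.mul_le_mul h7 this
        _ = (N / (4 * Y)) * (4 * Y) := by ring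
        _ ≤ N := Nat.div_mul_le_self _ _
    have hmain := affine hQD hDp b θ β hb1 (fun p hp => (hb2 p hp).trans hxK) hβ hKN hYpos hYN
      hhY hh1 hcCl
    rw [coveredCount_eq]
    set S := (Cov D a N).card with hS
    have hmR : ((c : ℝ) * Q.card) ^ 2 ≤ S * ((4 * K + 1) * (35 * N * h)) := by
      exact_mod_cast hmain
    have hQ2 : (N : ℝ) ^ (-δ) * (N : ℝ) ^ (α - η) ≤ Q.card :=
      (mul_le_mul_of_nonneg_left h1 (by positivity)).trans hQc
    have hprod : (N : ℝ) ^ (1 - α - η) * ((N : ℝ) ^ (-δ) * (N : ℝ) ^ (α - η)) ≤ c * Q.card :=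
      mul_le_mul hc1 hQ2 (by positivity) (Nat.cast_nonneg _)
    have e2 : (N : ℝ) ^ (1 - α - η) * ((N : ℝ) ^ (-δ) * (N : ℝ) ^ (α - η))
        = (N : ℝ) ^ (1 - δ - 2 * η) := by
      rw [← Real.rpow_add hN0, ← Real.rpow_add hN0]
      ring_nf
    rw [e2] at hprod
    have hsq : ((N : ℝ) ^ (1 - δ - 2 * η)) ^ 2 ≤ (S : ℝ) * ((9 * x) * (35 * N * h)) := by
      have g1 : ((N : ℝ) ^ (1 - δ - 2 * η)) ^ 2 ≤ ((c : ℝ) * Q.card) ^ 2 :=
        pow_le_pow_left₀ (by positivity) hprod 2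
      have g2 : (S : ℝ) * ((4 * K + 1) * (35 * N * h)) ≤ (S : ℝ) * ((9 * x) * (35 * N * h)) := by
        have : 4 * (K : ℝ) + 1 ≤ 9 * x := by linarith
        gcongr
      exact g1.trans (hmR.trans g2)
    have e3 : ((N : ℝ) ^ (1 - δ - 2 * η)) ^ 2
        = (N : ℝ) ^ (1 - 3 * δ - 5 * η) * ((N : ℝ) ^ η * (x * N)) := by
      have : (N : ℝ) ^ η * (x * N) = (N : ℝ) ^ (η + (δ + 1)) := by
        rw [Real.rpow_add hN0, Real.rpow_add hN0, Real.rpow_one]
      rw [this, ← Real.rpow_add hN0, ← Real.rpow_natCast, ← Real.rpow_mul hN0.le]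
      congr 1
      push_cast
      ring
    rw [e3] at hsq
    have hxN' : 0 < x * N := by positivity
    have hhR : (0 : ℝ) < h := by exact_mod_cast (by omega : 0 < h)
    have e5 : (N : ℝ) ^ (1 - 3 * δ - 5 * η) * (N : ℝ) ^ η ≤ S * (315 * h) := by
      have : (N : ℝ) ^ (1 - 3 * δ - 5 * η) * (N : ℝ) ^ η * (x * N) ≤ S * (315 * h) * (x * N) := by
        calc _ = (N : ℝ) ^ (1 - 3 * δ - 5 * η) * ((N : ℝ) ^ η * (x * N)) := by ring
          _ ≤ _ := hsq
          _ = _ := by ring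
      exact le_of_mul_le_mul_right this hxN'
    have e6 : (N : ℝ) ^ (1 - 3 * δ - 5 * η) * (315 * h) ≤ S * (315 * h) :=
      (mul_le_mul_of_nonneg_left h3 (by positivity)).trans e5
    have e7 : (N : ℝ) ^ (1 - 3 * δ - 5 * η) ≤ S := le_of_mul_le_mul_right e6 (by positivity)
    refine le_trans (Real.rpow_le_rpow_of_exponent_le hN1 ?_) e7
    linarith
  obtain ⟨N₀, hN₀⟩ := eventually_atTop.mp hev
  exact ⟨N₀, fun N hN a ha => hN₀ N hN a ha⟩

/-- Let `0 < α < 1` and `0 ≤ 2δ < 1 - α`. For all large `N` and every choice `a` of classes which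
is near-algebraic or near-affine (with error `N^δ`, on a proportion `N^(-δ)` of the primes), the
number of covered integers is at least `N^(1 - 3δ - ε)`. In particular (`δ` arbitrarily small) such
choices never give less than `N^(1 - o(1))`. -/
theorem result (α δ ε : ℝ) (hα : 0 < α) (hα1 : α < 1) (hδ : 0 ≤ δ) (hδα : 2 * δ < 1 - α)
    (hε : 0 < ε) :
    ∃ N₀ : ℕ, ∀ N : ℕ, N₀ ≤ N → ∀ a : (p : ℕ) → ZMod p,
      NearAlgebraic α N δ a ∨ NearAffine α N δ a →
      (N : ℝ) ^ (1 - 3 * δ - ε) ≤ (coveredCount α N a : ℝ) := by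
  obtain ⟨N₁, h1⟩ := part_algebraic hα hα1 hδ hδα hε
  obtain ⟨N₂, h2⟩ := part_affine hα hα1 hδ hδα hε
  refine ⟨max N₁ N₂, fun N hN a ha => ?_⟩
  rcases ha with ha | ha
  · exact h1 N ((le_max_left _ _).trans hN) a ha
  · exact h2 N ((le_max_right _ _).trans hN) a ha

end Pool.Agent.Results.MP_bb5cc8_nt.StructuredClasses
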